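import Pool.Agent.Helper49.PA.GoalsA

/-!
# Packet CHJ: the canonical Hales-Jewett theorem from the Graham-Rothschild theorem for lines
-/

set_option autoImplicit false

namespace PA49.PkCHJ

open Combinatorics

theorem S_evO {η A ι : Type} (S : Subspace η A ι) (w : η → Option A) (a : A) :
    S (evO w a) = evO (subO S w) a := by
  funext i
  rw [Subspace.coe_apply]
  unfold evO subO
  cases h : S.idxFun i with
  | inl a' => simp
  | inr e => simp

section

variable {A η : Type} {k : ℕ}

/-- the word given by the parameters `J` -/
def TJ (J : A × η → Fin (k + 1)) (u : η → A) : η ⊕ (A × η × Fin k) → A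
  | .inl e => u e
  | .inr (a, e, t) => if (t : ℕ) < J (a, e) then u e else a

/-- the word over `Option A` given by the parameters `J` -/
def TO (J : A × η → Fin (k + 1)) (u : η → Option A) : η ⊕ (A × η × Fin k) → Option A
  | .inl e => u e
  | .inr (a, e, t) => if (t : ℕ) < J (a, e) then u e else some a

theorem evO_TO (J : A × η → Fin (k + 1)) (u : η → Option A) (a : A) :
    evO (TO J u) a = TJ J (evO u a) := by
  funext i
  rcases i with e | ⟨b, e, t⟩
  · rfl
  · show (if (t : ℕ) < J (b, e) then u e else some b).getD a =
      if (t : ℕ) < J (b, e) then (u e).getD a else b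
    split_ifs <;> rfl

/-- the subspace given by the parameters `J` -/
def TS (J : A × η → Fin (k + 1)) : Subspace η A (η ⊕ (A × η × Fin k)) where
  idxFun
    | .inl e => .inr e
    | .inr (a, e, t) => if (t : ℕ) < J (a, e) then .inr e else .inl a
  proper e := ⟨.inl e, rfl⟩

/-- composition of subspaces -/
def cmp {η' ι : Type} (S : Subspace η' A ι) (T : Subspace η A η') : Subspace η A ι where
  idxFun i := match S.idxFun i with
    | .inl a => .inl a
    | .inr e' => T.idxFun e'
  proper e := by
    obtain ⟨e', he'⟩ := T.proper e
    obtain ⟨i, hi⟩ := S.proper e'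
    exact ⟨i, by rw [hi]; exact he'⟩

theorem cmp_apply {η' ι : Type} (S : Subspace η' A ι) (T : Subspace η A η') (x : η → A) :
    cmp S T x = S (T x) := by
  funext i
  rw [Subspace.coe_apply, Subspace.coe_apply]
  unfold cmp
  cases h : S.idxFun i with
  | inl a' => simp [h]
  | inr e => simp [h, Subspace.coe_apply]

theorem TS_apply (J : A × η → Fin (k + 1)) (x : η → A) : TS J x = TJ J x := by
  funext i
  rcases i with e | ⟨b, e, t⟩
  · rfl
  · show ((if (t : ℕ) < J (b, e) then (Sum.inr e : A ⊕ η) else .inl b).elim id x : A) =
      if (t : ℕ) < J (b, e) then x e else b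
    split_ifs <;> rfl

end

theorem chj (h : G_GR) : G_CHJ := by
  classical
  intro A η _ _
  have : Fintype A := Fintype.ofFinite A
  have : Fintype η := Fintype.ofFinite η
  rcases isEmpty_or_nonempty η with hη | hη
  · refine ⟨Empty, inferInstance, fun Θ hΘ => ⟨⟨Empty.elim, fun e => hη.elim e⟩, Eq, eq_equivalence,
      fun x y => ?_⟩⟩
    constructor
    · intro _ e
      exact hη.elim e
    · intro _
      rw [Subsingleton.elim x y]
      exact hΘ.refl _
  rcases isEmpty_or_nonempty A with hA | hA
  · refine ⟨η, inferInstance, fun Θ hΘ => ⟨⟨Sum.inr, fun e => ⟨e, rfl⟩⟩, Eq, eq_equivalence,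
      fun x y => ?_⟩⟩
    exact hA.elim (x hη.some)
  set k : ℕ := Fintype.card ((η → A) × (η → A)) with hk
  obtain ⟨ι, hι, hS⟩ := h A (A → A → Prop) (η ⊕ (A × η × Fin k))
  refine ⟨ι, hι, fun Θ hΘ => ?_⟩
  obtain ⟨S, ψ, hψ⟩ := hS fun w a b => Θ (evO w a) (evO w b)
  have L : ∀ w : η ⊕ (A × η × Fin k) → Option A, (∃ e, w e = none) → ∀ a b,
      (Θ (S (evO w a)) (S (evO w b)) ↔ ψ a b) := by
    intro w hw a b
    have h1 := hψ w hw
    rw [S_evO, S_evO, ← h1]
  have hψeq : Equivalence ψ := by
    obtain ⟨e0⟩ := hη
    have hL := L (fun _ => none) ⟨Sum.inl e0, rfl⟩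
    refine ⟨fun a => (hL a a).mp (hΘ.refl _), fun {a b} hab => ?_, fun {a b c} hab hbc => ?_⟩
    · exact (hL b a).mp (hΘ.symm ((hL a b).mpr hab))
    · exact (hL a c).mp (hΘ.trans ((hL a b).mpr hab) ((hL b c).mpr hbc))
  -- first half
  have h1 : ∀ (J : A × η → Fin (k + 1)) (u v : η → A), (∀ e, ψ (u e) (v e)) →
      Θ (S (TJ J u)) (S (TJ J v)) := by
    intro J u v huv
    have hmix : ∀ s : Finset η, Θ (S (TJ J u)) (S (TJ J fun e => if e ∈ s then v e else u e)) := by
      intro s
      induction s using Finset.induction_on with
      | empty => simpa using hΘ.refl _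
      | insert e0 s he0 ih =>
        refine hΘ.trans ih ?_
        let w' : η → Option A := fun e => if e = e0 then none else
          some (if e ∈ s then v e else u e)
        have hw : ∃ e, TO J w' e = none := ⟨.inl e0, by simp [TO, w']⟩
        have hLw := (L (TO J w') hw (u e0) (v e0)).mpr (huv e0)
        rw [evO_TO, evO_TO] at hLw
        have e1 : evO w' (u e0) = fun e => if e ∈ s then v e else u e := by
          funext e
          by_cases hee : e = e0
          · subst hee
            simp [evO, w', he0]
          · simp [evO, w', hee]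
        have e2 : evO w' (v e0) = fun e => if e ∈ insert e0 s then v e else u e := by
          funext e
          by_cases hee : e = e0
          · subst hee
            simp [evO, w']
          · simp [evO, w', hee]
        rw [e1, e2] at hLw
        exact hLw
    have := hmix Finset.univ
    simpa using this
  -- second half: bad parameters
  let bad : (η → A) × (η → A) → Finset (A × η → Fin (k + 1)) := fun uv =>
    Finset.univ.filter fun J => (∃ e, ¬ ψ (uv.1 e) (uv.2 e)) ∧ Θ (S (TJ J uv.1)) (S (TJ J uv.2))
  have hinj0 : ∀ (u v : η → A) (e : η), ¬ ψ (u e) (v e) → ∀ J J' : A × η → Fin (k + 1),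
      (∀ x, x ≠ (u e, e) → J x = J' x) → J (u e, e) < J' (u e, e) →
      Θ (S (TJ J u)) (S (TJ J v)) → Θ (S (TJ J' u)) (S (TJ J' v)) → False := by
    intro u v e hne J J' hJJ hlt hb hb'
    have e1 : TJ J u = TJ J' u := by
      funext i
      rcases i with e' | ⟨b, e', t⟩
      · rfl
      · show (if (t : ℕ) < J (b, e') then u e' else b) = if (t : ℕ) < J' (b, e') then u e' else b
        by_cases hx : (b, e') = (u e, e)
        · have hb1 : b = u e := congrArg Prod.fst hx
          have he1 : e' = e := congrArg Prod.snd hx
          subst he1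
          subst hb1
          simp
        · rw [hJJ _ hx]
    let w : η ⊕ (A × η × Fin k) → Option A := fun i => if TJ J v i = TJ J' v i then
      some (TJ J v i) else none
    have hdiff : ∀ i, TJ J v i ≠ TJ J' v i → TJ J v i = u e ∧ TJ J' v i = v e := by
      intro i hi
      rcases i with e' | ⟨b, e', t⟩
      · exact absurd rfl hi
      · by_cases hx : (b, e') = (u e, e)
        · have hb1 : b = u e := congrArg Prod.fst hx
          have he1 : e' = e := congrArg Prod.snd hx
          subst he1
          subst hb1
          have e2 : TJ J v (Sum.inr (u e', e', t)) =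
            if (t : ℕ) < J (u e', e') then v e' else u e' := rfl
          have e3 : TJ J' v (Sum.inr (u e', e', t)) =
            if (t : ℕ) < J' (u e', e') then v e' else u e' := rfl
          rw [e2, e3] at hi ⊢
          have hlt' : (J (u e', e') : ℕ) < J' (u e', e') := hlt
          by_cases h2 : (t : ℕ) < J (u e', e')
          · have h3 : (t : ℕ) < J' (u e', e') := h2.trans hlt'
            rw [if_pos h2, if_pos h3] at hi
            exact absurd rfl hi
          · by_cases h3 : (t : ℕ) < J' (u e', e')
            · rw [if_neg h2, if_pos h3]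
              exact ⟨rfl, rfl⟩
            · rw [if_neg h2, if_neg h3] at hi
              exact absurd rfl hi
        · exfalso
          apply hi
          show (if (t : ℕ) < J (b, e') then v e' else b) = if (t : ℕ) < J' (b, e') then v e' else b
          rw [hJJ _ hx]
    have hwa : evO w (u e) = TJ J v := by
      funext i
      by_cases hi : TJ J v i = TJ J' v i
      · simp [evO, w, hi]
      · have hwi : w i = none := if_neg hi
        show (w i).getD (u e) = TJ J v i
        rw [hwi, (hdiff i hi).1]
        rfl
    have hwb : evO w (v e) = TJ J' v := by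
      funext i
      by_cases hi : TJ J v i = TJ J' v i
      · simp [evO, w, hi]
      · have hwi : w i = none := if_neg hi
        show (w i).getD (v e) = TJ J' v i
        rw [hwi, (hdiff i hi).2]
        rfl
    have hwn : ∃ i, w i = none := by
      have hlt' : (J (u e, e) : ℕ) < J' (u e, e) := hlt
      have hJk : (J (u e, e) : ℕ) < k := by
        have := (J' (u e, e)).2
        omega
      refine ⟨.inr (u e, e, ⟨J (u e, e), hJk⟩), ?_⟩
      have e2 : TJ J v (Sum.inr (u e, e, ⟨J (u e, e), hJk⟩)) = u e := by
        simp [TJ]
      have e3 : TJ J' v (Sum.inr (u e, e, ⟨J (u e, e), hJk⟩)) = v e := by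
        simp only [TJ]
        rw [if_pos hlt']
      have huv : u e ≠ v e := fun huv => hne (by rw [← huv]; exact hψeq.refl _)
      simp only [w]
      rw [e2, e3, if_neg huv]
    apply hne
    rw [← L w hwn (u e) (v e), hwa, hwb]
    rw [e1] at hb
    exact hΘ.trans (hΘ.symm hb) hb'
  have hcard : ∀ uv, (bad uv).card * (k + 1) ≤ Fintype.card (A × η → Fin (k + 1)) := by
    intro uv
    by_cases he : ∃ e, ¬ ψ (uv.1 e) (uv.2 e)
    · obtain ⟨e, he⟩ := he
      have hc : ((bad uv) ×ˢ (Finset.univ : Finset (Fin (k + 1)))).card ≤
          (Finset.univ : Finset (A × η → Fin (k + 1))).card := by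
        refine Finset.card_le_card_of_injOn (fun p => Function.update p.1 (uv.1 e, e) p.2)
          (fun _ _ => Finset.mem_univ _) ?_
        rintro ⟨J, c⟩ hJ ⟨J', c'⟩ hJ' heq
        simp only at heq
        have hJb : J ∈ bad uv := (Finset.mem_product.mp hJ).1
        have hJb' : J' ∈ bad uv := (Finset.mem_product.mp hJ').1
        have hb := (Finset.mem_filter.mp hJb).2.2
        have hb' := (Finset.mem_filter.mp hJb').2.2
        have hcc : c = c' := by
          have := congrFun heq (uv.1 e, e)
          simpa using this
        have hoff : ∀ x, x ≠ (uv.1 e, e) → J x = J' x := by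
          intro x hx
          have := congrFun heq x
          simpa [Function.update_of_ne hx] using this
        have hJJ : J = J' := by
          funext x
          by_cases hx : x = (uv.1 e, e)
          · subst hx
            rcases lt_trichotomy (J (uv.1 e, e)) (J' (uv.1 e, e)) with hlt | heq' | hgt
            · exact (hinj0 uv.1 uv.2 e he J J' hoff hlt hb hb').elim
            · exact heq'
            · exact (hinj0 uv.1 uv.2 e he J' J (fun x hx => (hoff x hx).symm) hgt hb' hb).elim
          · exact hoff x hx
        rw [hJJ, hcc]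
      rw [Finset.card_product, Finset.card_univ, Fintype.card_fin, Finset.card_univ] at hc
      exact hc
    · have : bad uv = ∅ := by
        refine Finset.filter_eq_empty_iff.mpr fun J _ hJ => he hJ.1
      rw [this]
      simp
  have hgood : ∃ J : A × η → Fin (k + 1), ∀ uv, J ∉ bad uv := by
    by_contra hno
    push Not at hno
    have hcov : (Finset.univ : Finset (A × η → Fin (k + 1))) ⊆ Finset.univ.biUnion bad := by
      intro J _
      obtain ⟨uv, huv⟩ := hno J
      exact Finset.mem_biUnion.mpr ⟨uv, Finset.mem_univ _, huv⟩
    have h2 := (Finset.card_le_card hcov).trans Finset.card_biUnion_le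
    rw [Finset.card_univ] at h2
    set N := Fintype.card (A × η → Fin (k + 1)) with hN
    have hNpos : 0 < N := Fintype.card_pos
    have h3 : (∑ uv, (bad uv).card) * (k + 1) ≤ k * N := by
      rw [Finset.sum_mul]
      calc ∑ uv, (bad uv).card * (k + 1) ≤ ∑ _uv : (η → A) × (η → A), N :=
            Finset.sum_le_sum fun uv _ => hcard uv
        _ = k * N := by
            rw [Finset.sum_const, Finset.card_univ, ← hk, smul_eq_mul]
    have h4 : N * (k + 1) ≤ k * N := (Nat.mul_le_mul_right _ h2).trans h3
    nlinarith
  obtain ⟨J, hJ⟩ := hgood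
  refine ⟨cmp S (TS J), ψ, hψeq, fun x y => ?_⟩
  rw [cmp_apply, cmp_apply, TS_apply, TS_apply]
  constructor
  · intro hxy
    by_contra hno
    push Not at hno
    exact hJ (x, y) (Finset.mem_filter.mpr ⟨Finset.mem_univ _, hno, hxy⟩)
  · intro hxy
    exact h1 J x y hxy

end PA49.PkCHJ
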